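import Pool.Agent.Lib_helper16.QuadAlg
import Pool.Agent.Lib_helper16.QuadCorner

/-!
# Perpendicular perimeter-quadrisecting chords

For every plane convex figure `F` and every pair of perpendicular chords `[a, c]`, `[b, d]` that
quadrisect the perimeter, `2 (|a - c| + |b - d|) ≥ p(F)` and hence `|a - c| + |b - d| ≥ D(F)`.
-/

open Set Metric
open Pool.Agent.Lib_helper16.Quad

namespace Pool.Agent.Results.MP_0815b2_gt.PerpendicularQuadrisection

/-- A plane convex figure: a compact convex subset of the Euclidean plane with nonempty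
interior. -/
structure IsFigure (F : Set (EuclideanSpace ℝ (Fin 2))) : Prop where
  convex : Convex ℝ F
  compact : IsCompact F
  interior_nonempty : (interior F).Nonempty

/-- `γ` is a closed curve running once around the boundary of `F`: it is continuous, periodic with
period `4`, injective on `[0, 4)`, and its image is the boundary `frontier F`.  Its length over one
period, `eVariationOn γ (Icc 0 4)` (the supremum of the lengths of inscribed polygonal lines), is
the perimeter of `F`. -/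
structure IsBoundaryCurve (F : Set (EuclideanSpace ℝ (Fin 2))) (γ : ℝ → EuclideanSpace ℝ (Fin 2)) :
    Prop where
  continuous : Continuous γ
  periodic : Function.Periodic γ 4
  injOn : InjOn γ (Ico 0 4)
  range_eq : range γ = frontier F

/-- The four points `a, b, c, d` occur in this cyclic order along the boundary of `F` and cut it
into four arcs, each of length one quarter of the perimeter: some closed curve `γ` running once
around the boundary passes through `a, b, c, d` at the parameters `0, 1, 2, 3`, and each of its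
arcs over `[0,1]`, `[1,2]`, `[2,3]`, `[3,4]` has length `eVariationOn γ (Icc 0 4) / 4`. -/
def QuadrisectsPerimeter (F : Set (EuclideanSpace ℝ (Fin 2))) (a b c d : EuclideanSpace ℝ (Fin 2)) :
    Prop :=
  ∃ γ : ℝ → EuclideanSpace ℝ (Fin 2), IsBoundaryCurve F γ ∧
    γ 0 = a ∧ γ 1 = b ∧ γ 2 = c ∧ γ 3 = d ∧
    eVariationOn γ (Icc 0 1) = eVariationOn γ (Icc 0 4) / 4 ∧
    eVariationOn γ (Icc 1 2) = eVariationOn γ (Icc 0 4) / 4 ∧
    eVariationOn γ (Icc 2 3) = eVariationOn γ (Icc 0 4) / 4 ∧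
    eVariationOn γ (Icc 3 4) = eVariationOn γ (Icc 0 4) / 4

lemma frame_of {w : E2} {i0 i1 j0 j1 : ℝ} (hi : i0^2 + i1^2 = 1) (hj : j0^2 + j1^2 = 1)
    (hij : i0 * j0 + i1 * j1 = 0) :
    Frame (fun z => (z 0 - w 0) * i0 + (z 1 - w 1) * i1) (fun z => (z 0 - w 0) * j0 + (z 1 - w 1) * j1) := by
  obtain ⟨ε, hε⟩ : ∃ ε, ε = i0 * j1 - i1 * j0 := ⟨_, rfl⟩
  have hε2 : ε^2 = 1 := by
    have : ε^2 + (i0*j0+i1*j1)^2 = (i0^2+i1^2)*(j0^2+j1^2) := by rw [hε]; ring
    rw [hij, hi, hj] at this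
    linarith
  have e0 : j0 = -ε * i1 := by
    rw [hε]
    linear_combination (-j0) * hi + i0 * hij
  have e1 : j1 = ε * i0 := by
    rw [hε]
    linear_combination (-j1) * hi + i1 * hij
  have r1 : i0^2 + j0^2 = 1 := by rw [e0]; linear_combination hi + i1^2 * hε2
  have r2 : i1^2 + j1^2 = 1 := by rw [e1]; linear_combination hi + i0^2 * hε2
  have r3 : i0 * i1 + j0 * j1 = 0 := by rw [e0, e1]; linear_combination (-(i0 * i1)) * hε2
  refine ⟨fun z z' l => ?_, fun z z' l => ?_, fun z z' => ?_, ?_⟩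
  · simp only [PiLp.add_apply, PiLp.smul_apply, PiLp.sub_apply, smul_eq_mul]; ring
  · simp only [PiLp.add_apply, PiLp.smul_apply, PiLp.sub_apply, smul_eq_mul]; ring
  · rw [EuclideanSpace.dist_eq, Real.sq_sqrt (by positivity), Fin.sum_univ_two, Real.dist_eq,
      Real.dist_eq, sq_abs, sq_abs]
    linear_combination (-(z 0 - z' 0)^2) * r1 - (z 1 - z' 1)^2 * r2 - 2 * (z 0 - z' 0) * (z 1 - z' 1) * r3
  · refine ⟨!₂[i0, i1], !₂[j0, j1], fun z z' => ?_⟩
    ext k
    fin_cases k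
    · simp
      linear_combination (-(z 0 - z' 0)) * r1 - (z 1 - z' 1) * r3
    · simp
      linear_combination (-(z 1 - z' 1)) * r2 - (z 0 - z' 0) * r3

set_option maxHeartbeats 1000000 in
/-- the perimeter inequality in real form -/
theorem main_ineq {F : Set E2} {γ : ℝ → E2} (hF : Convex ℝ F) (hc : IsCompact F)
    (hint : (interior F).Nonempty) (h : BoundaryLoop F γ)
    (hperp : (γ 2 0 - γ 0 0) * (γ 1 0 - γ 3 0) + (γ 2 1 - γ 0 1) * (γ 1 1 - γ 3 1) = 0)
    {L : ℝ} (hL : 0 ≤ L)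
    (v1 : ENNReal.ofReal L ≤ eVariationOn γ (Icc 0 1))
    (v2 : ENNReal.ofReal L ≤ eVariationOn γ (Icc 1 2))
    (v3 : ENNReal.ofReal L ≤ eVariationOn γ (Icc 2 3))
    (v4 : ENNReal.ofReal L ≤ eVariationOn γ (Icc 3 4))
    (d1 : dist (γ 0) (γ 1) ≤ L) (d2 : dist (γ 1) (γ 2) ≤ L) (d3 : dist (γ 2) (γ 3) ≤ L)
    (d4 : dist (γ 3) (γ 0) ≤ L) :
    2 * L ≤ dist (γ 0) (γ 2) + dist (γ 1) (γ 3) := by
  obtain ⟨w, hw1, hw2⟩ := crossing hF hc h (show (0:ℝ) ≤ 1 by norm_num) (show (1:ℝ) ≤ 2 by norm_num)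
    (show (2:ℝ) ≤ 3 by norm_num) (by norm_num)
  rw [segment_eq_image'] at hw1 hw2
  obtain ⟨l, hl, hlw⟩ := hw1
  obtain ⟨m, hm, hmw⟩ := hw2
  simp only at hlw hmw
  have dsq : ∀ z z' : E2, dist z z' ^ 2 = (z 0 - z' 0)^2 + (z 1 - z' 1)^2 := by
    intro z z'
    rw [EuclideanSpace.dist_eq, Real.sq_sqrt (by positivity), Fin.sum_univ_two, Real.dist_eq,
      Real.dist_eq, sq_abs, sq_abs]
  obtain ⟨u, hu⟩ : ∃ u, u = dist (γ 0) (γ 2) := ⟨_, rfl⟩
  obtain ⟨v, hv⟩ : ∃ v, v = dist (γ 1) (γ 3) := ⟨_, rfl⟩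
  have hu0 : 0 < u := by rw [hu]; exact dist_pos.2 (h.ne (by norm_num) (by norm_num))
  have hv0 : 0 < v := by rw [hv]; exact dist_pos.2 (h.ne (by norm_num) (by norm_num))
  have hu2 : u^2 = (γ 2 0 - γ 0 0)^2 + (γ 2 1 - γ 0 1)^2 := by rw [hu, dsq]; ring
  have hv2 : v^2 = (γ 1 0 - γ 3 0)^2 + (γ 1 1 - γ 3 1)^2 := by rw [hv, dsq]
  rw [← hu, ← hv]
  obtain ⟨i0, hi0⟩ : ∃ i0, i0 = (γ 2 0 - γ 0 0) / u := ⟨_, rfl⟩
  obtain ⟨i1, hi1⟩ : ∃ i1, i1 = (γ 2 1 - γ 0 1) / u := ⟨_, rfl⟩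
  obtain ⟨j0, hj0⟩ : ∃ j0, j0 = (γ 1 0 - γ 3 0) / v := ⟨_, rfl⟩
  obtain ⟨j1, hj1⟩ : ∃ j1, j1 = (γ 1 1 - γ 3 1) / v := ⟨_, rfl⟩
  have A0 : γ 2 0 - γ 0 0 = u * i0 := by rw [hi0]; field_simp
  have A1 : γ 2 1 - γ 0 1 = u * i1 := by rw [hi1]; field_simp
  have B0 : γ 1 0 - γ 3 0 = v * j0 := by rw [hj0]; field_simp
  have B1 : γ 1 1 - γ 3 1 = v * j1 := by rw [hj1]; field_simp
  have hi : i0^2 + i1^2 = 1 := by
    rw [A0, A1] at hu2
    have : u^2 * (i0^2 + i1^2) = u^2 * 1 := by linarith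
    exact mul_left_cancel₀ (by positivity) this
  have hj : j0^2 + j1^2 = 1 := by
    rw [B0, B1] at hv2
    have : v^2 * (j0^2 + j1^2) = v^2 * 1 := by linarith
    exact mul_left_cancel₀ (by positivity) this
  have hij : i0 * j0 + i1 * j1 = 0 := by
    rw [A0, A1, B0, B1] at hperp
    have : (u * v) * (i0 * j0 + i1 * j1) = (u * v) * 0 := by linarith
    exact mul_left_cancel₀ (by positivity) this
  have fr := frame_of (w := w) hi hj hij
  obtain ⟨x, hx⟩ : ∃ x : E2 → ℝ, x = fun z => (z 0 - w 0) * i0 + (z 1 - w 1) * i1 := ⟨_, rfl⟩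
  obtain ⟨y, hy⟩ : ∃ y : E2 → ℝ, y = fun z => (z 0 - w 0) * j0 + (z 1 - w 1) * j1 := ⟨_, rfl⟩
  rw [← hx, ← hy] at fr
  -- coordinates of w
  have w0 : w 0 = γ 0 0 + l * (γ 2 0 - γ 0 0) := by rw [← hlw]; simp
  have w1 : w 1 = γ 0 1 + l * (γ 2 1 - γ 0 1) := by rw [← hlw]; simp
  have w0' : w 0 = γ 1 0 + m * (γ 3 0 - γ 1 0) := by rw [← hmw]; simp
  have w1' : w 1 = γ 1 1 + m * (γ 3 1 - γ 1 1) := by rw [← hmw]; simp
  have a0 : γ 0 0 - w 0 = -(l * u) * i0 := by rw [w0, A0]; ring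
  have a1 : γ 0 1 - w 1 = -(l * u) * i1 := by rw [w1, A1]; ring
  have c0 : γ 2 0 - w 0 = ((1 - l) * u) * i0 := by linear_combination a0 + A0
  have c1 : γ 2 1 - w 1 = ((1 - l) * u) * i1 := by linear_combination a1 + A1
  have b0 : γ 1 0 - w 0 = (m * v) * j0 := by rw [w0']; linear_combination m * B0
  have b1 : γ 1 1 - w 1 = (m * v) * j1 := by rw [w1']; linear_combination m * B1
  have e0 : γ 3 0 - w 0 = -((1 - m) * v) * j0 := by linear_combination b0 - B0
  have e1 : γ 3 1 - w 1 = -((1 - m) * v) * j1 := by linear_combination b1 - B1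
  obtain ⟨a, ha⟩ : ∃ a, a = l * u := ⟨_, rfl⟩
  obtain ⟨c, hcdef⟩ : ∃ c, c = (1 - l) * u := ⟨_, rfl⟩
  obtain ⟨b, hb⟩ : ∃ b, b = m * v := ⟨_, rfl⟩
  obtain ⟨d, hd⟩ : ∃ d, d = (1 - m) * v := ⟨_, rfl⟩
  rw [← ha] at a0 a1
  rw [← hcdef] at c0 c1
  rw [← hb] at b0 b1
  rw [← hd] at e0 e1
  have ha0 : 0 ≤ a := by rw [ha]; exact mul_nonneg hl.1 hu0.le
  have hc0 : 0 ≤ c := by rw [hcdef]; exact mul_nonneg (by linarith [hl.2]) hu0.le
  have hb0 : 0 ≤ b := by rw [hb]; exact mul_nonneg hm.1 hv0.le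
  have hd0 : 0 ≤ d := by rw [hd]; exact mul_nonneg (by linarith [hm.2]) hv0.le
  have hac : a + c = u := by rw [ha, hcdef]; ring
  have hbd : b + d = v := by rw [hb, hd]; ring
  have xa : x (γ 0) = -a := by rw [hx]; simp only; rw [a0, a1]; linear_combination (-a) * hi
  have ya : y (γ 0) = 0 := by rw [hy]; simp only; rw [a0, a1]; linear_combination (-a) * hij
  have xc : x (γ 2) = c := by rw [hx]; simp only; rw [c0, c1]; linear_combination c * hi
  have yc : y (γ 2) = 0 := by rw [hy]; simp only; rw [c0, c1]; linear_combination c * hij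
  have xb : x (γ 1) = 0 := by rw [hx]; simp only; rw [b0, b1]; linear_combination b * hij
  have yb : y (γ 1) = b := by rw [hy]; simp only; rw [b0, b1]; linear_combination b * hj
  have xd : x (γ 3) = 0 := by rw [hx]; simp only; rw [e0, e1]; linear_combination (-d) * hij
  have yd : y (γ 3) = -d := by rw [hy]; simp only; rw [e0, e1]; linear_combination (-d) * hj
  have g4 : γ 4 = γ 0 := by have := h.periodic 0; simpa using this
  have g5 : γ 5 = γ 1 := by
    have := h.periodic 1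
    have e : (1:ℝ) + 4 = 5 := by norm_num
    rwa [e] at this
  have g6 : γ 6 = γ 2 := by
    have := h.periodic 2
    have e : (2:ℝ) + 4 = 6 := by norm_num
    rwa [e] at this
  -- support lines
  obtain ⟨p, hp, hp1, sp⟩ := exists_support hF hint fr (h.mem_frontier 0) xa ya (h.mem hc 2)
    (by rw [xc]; linarith) yc
  obtain ⟨q, hq, hq1, sq⟩ := exists_support hF hint fr.rot (h.mem_frontier 1) (α := b) (by rw [yb]) xb
    (h.mem hc 3) (by rw [yd]; linarith) xd
  obtain ⟨r, hr, hr1, sr⟩ := exists_support hF hint fr.rot.rot (h.mem_frontier 2) (α := c)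
    (by rw [xc]) (by rw [yc]; simp)
    (h.mem hc 0) (by rw [xa]; linarith) (by rw [ya]; simp)
  obtain ⟨s, hs, hs1, ss⟩ := exists_support hF hint fr.rot.rot.rot (h.mem_frontier 3) (α := d)
    (by rw [yd]; ring) (by rw [xd]; simp)
    (h.mem hc 1) (by rw [yb]; linarith) (by rw [xb]; simp)
  have hu' : 0 < a + c := by rw [hac]; exact hu0
  have hv' : 0 < b + d := by rw [hbd]; exact hv0
  -- the four corners
  have k1 := corner hF hc h fr 0 ha0 hb0 hc0 hd0 hu' hv' xa ya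
    (by rw [zero_add]; exact xb) (by rw [zero_add]; exact yb) (by rw [zero_add]; exact xc)
    (by rw [zero_add]; exact yc) (by rw [zero_add]; exact xd) (by rw [zero_add]; exact yd)
    hp hp1 hq hq1 sp (fun z hz => by have := sq z hz; linarith) hL (by rw [zero_add]; exact v1)
  have k2 := corner hF hc h fr.rot 1 hb0 hc0 hd0 ha0 hv' (by linarith)
    (by rw [yb]) xb
    (by norm_num; exact yc) (by norm_num; exact xc)
    (by norm_num; linarith) (by norm_num; exact xd)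
    (by norm_num; rw [g4]; exact ya) (by norm_num; rw [g4]; exact xa)
    hq hq1 hr hr1 sq (fun z hz => by have := sr z hz; linarith) hL
    (by norm_num; exact v2)
  have k3 := corner hF hc h fr.rot.rot 2 hc0 hd0 ha0 hb0 (by linarith) (by linarith)
    (by rw [xc]) (by rw [yc]; simp)
    (by norm_num; exact xd) (by norm_num; linarith)
    (by norm_num; rw [g4]; linarith) (by norm_num; rw [g4]; exact ya)
    (by norm_num; rw [g5]; exact xb) (by norm_num; rw [g5]; exact yb)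
    hr hr1 hs hs1 sr (fun z hz => by have := ss z hz; linarith) hL
    (by norm_num; exact v3)
  have k4 := corner hF hc h fr.rot.rot.rot 3 hd0 ha0 hb0 hc0 (by linarith) (by linarith)
    (by rw [yd]; ring) (by rw [xd]; simp)
    (by norm_num; rw [g4]; exact ya) (by norm_num; rw [g4]; linarith)
    (by norm_num; rw [g5]; exact yb) (by norm_num; rw [g5]; exact xb)
    (by norm_num; rw [g6]; exact yc) (by norm_num; rw [g6]; exact xc)
    hs hs1 hp hp1 ss (fun z hz => by have := sp z hz; linarith) hL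
    (by norm_num; exact v4)
  -- squares of the sides
  have D1 : a^2 + b^2 ≤ L^2 := by
    have e := fr.dist_sq (γ 0) (γ 1)
    rw [xa, ya, xb, yb] at e
    have := pow_le_pow_left₀ dist_nonneg d1 2
    linarith
  have D2 : b^2 + c^2 ≤ L^2 := by
    have e := fr.dist_sq (γ 1) (γ 2)
    rw [xb, yb, xc, yc] at e
    have := pow_le_pow_left₀ dist_nonneg d2 2
    linarith
  have D3 : c^2 + d^2 ≤ L^2 := by
    have e := fr.dist_sq (γ 2) (γ 3)
    rw [xc, yc, xd, yd] at e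
    have := pow_le_pow_left₀ dist_nonneg d3 2
    linarith
  have D4 : d^2 + a^2 ≤ L^2 := by
    have e := fr.dist_sq (γ 3) (γ 0)
    rw [xd, yd, xa, ya] at e
    have := pow_le_pow_left₀ dist_nonneg d4 2
    linarith
  have t1 := sp _ (h.mem hc 1)
  have t2 := sp _ (h.mem hc 3)
  have t3 := sq _ (h.mem hc 0)
  have t4 := sq _ (h.mem hc 2)
  have t5 := sr _ (h.mem hc 1)
  have t6 := sr _ (h.mem hc 3)
  have t7 := ss _ (h.mem hc 2)
  have t8 := ss _ (h.mem hc 0)
  simp only [xa, ya, xb, yb, xc, yc, xd, yd] at t1 t2 t3 t4 t5 t6 t7 t8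
  have := alg ha0 hb0 hc0 hd0 hu' hv' hL hp hp1 hq hq1 hr hr1 hs hs1
    (by linarith) (by linarith) (by linarith) (by linarith) (by linarith) (by linarith)
    (by linarith) (by linarith) D1 D2 D3 D4 k1 k2 k3 k4
  linarith

/-- The perimeter inequality: `p(F) ≤ 2 (|a - c| + |b - d|)`. -/
theorem perimeter_le {F : Set E2} {γ : ℝ → E2} (hF : Convex ℝ F) (hc : IsCompact F)
    (hint : (interior F).Nonempty) (h : BoundaryLoop F γ)
    (hperp : (γ 2 0 - γ 0 0) * (γ 1 0 - γ 3 0) + (γ 2 1 - γ 0 1) * (γ 1 1 - γ 3 1) = 0)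
    (v1 : eVariationOn γ (Icc 0 1) = eVariationOn γ (Icc 0 4) / 4)
    (v2 : eVariationOn γ (Icc 1 2) = eVariationOn γ (Icc 0 4) / 4)
    (v3 : eVariationOn γ (Icc 2 3) = eVariationOn γ (Icc 0 4) / 4)
    (v4 : eVariationOn γ (Icc 3 4) = eVariationOn γ (Icc 0 4) / 4) :
    eVariationOn γ (Icc 0 4) ≤ ENNReal.ofReal (2 * (dist (γ 0) (γ 2) + dist (γ 1) (γ 3))) := by
  by_contra hlt
  push Not at hlt
  obtain ⟨S, hS⟩ : ∃ S, S = (dist (γ 0) (γ 2) + dist (γ 1) (γ 3)) / 2 := ⟨_, rfl⟩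
  have hS0 : 0 ≤ S := by rw [hS]; positivity
  obtain ⟨ℓ, hℓ⟩ : ∃ ℓ, ℓ = eVariationOn γ (Icc 0 4) / 4 := ⟨_, rfl⟩
  have hSℓ : ENNReal.ofReal S < ℓ := by
    rw [hℓ, ENNReal.lt_div_iff_mul_lt (Or.inl (by norm_num)) (Or.inl (by norm_num))]
    refine lt_of_eq_of_lt ?_ hlt
    have : (4 : ENNReal) = ENNReal.ofReal 4 := by norm_num
    rw [this, ← ENNReal.ofReal_mul hS0]
    congr 1
    rw [hS]; ring
  rw [← hℓ] at v1 v2 v3 v4
  have g4 : γ 4 = γ 0 := by have := h.periodic 0; simpa using this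
  have q1 : edist (γ 0) (γ 1) ≤ ℓ := by
    rw [← v1]; exact eVariationOn.edist_le _ ⟨by norm_num, by norm_num⟩ ⟨by norm_num, by norm_num⟩
  have q2 : edist (γ 1) (γ 2) ≤ ℓ := by
    rw [← v2]; exact eVariationOn.edist_le _ ⟨by norm_num, by norm_num⟩ ⟨by norm_num, by norm_num⟩
  have q3 : edist (γ 2) (γ 3) ≤ ℓ := by
    rw [← v3]; exact eVariationOn.edist_le _ ⟨by norm_num, by norm_num⟩ ⟨by norm_num, by norm_num⟩
  have q4 : edist (γ 3) (γ 0) ≤ ℓ := by
    rw [← v4, ← g4]; exact eVariationOn.edist_le _ ⟨by norm_num, by norm_num⟩ ⟨by norm_num, by norm_num⟩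
  have key : ∃ L : ℝ, S < L ∧ ENNReal.ofReal L ≤ ℓ ∧ dist (γ 0) (γ 1) ≤ L ∧ dist (γ 1) (γ 2) ≤ L ∧
      dist (γ 2) (γ 3) ≤ L ∧ dist (γ 3) (γ 0) ≤ L := by
    by_cases htop : ℓ = ⊤
    · have n1 : 0 ≤ dist (γ 0) (γ 1) := dist_nonneg
      have n2 : 0 ≤ dist (γ 1) (γ 2) := dist_nonneg
      have n3 : 0 ≤ dist (γ 2) (γ 3) := dist_nonneg
      have n4 : 0 ≤ dist (γ 3) (γ 0) := dist_nonneg
      refine ⟨S + 1 + dist (γ 0) (γ 1) + dist (γ 1) (γ 2) + dist (γ 2) (γ 3) + dist (γ 3) (γ 0),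
        by linarith, by rw [htop]; exact le_top, by linarith, by linarith, by linarith, by linarith⟩
    · have conv : ∀ z z' : E2, edist z z' ≤ ℓ → dist z z' ≤ ℓ.toReal := by
        intro z z' hz
        rw [dist_edist]
        exact ENNReal.toReal_mono htop hz
      refine ⟨ℓ.toReal, (ENNReal.ofReal_lt_iff_lt_toReal hS0 htop).1 hSℓ, ENNReal.ofReal_toReal_le,
        conv _ _ q1, conv _ _ q2, conv _ _ q3, conv _ _ q4⟩
  obtain ⟨L, hSL, hL, d1, d2, d3, d4⟩ := key
  have := main_ineq hF hc hint h hperp (by linarith) (by rw [v1]; exact hL) (by rw [v2]; exact hL)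
    (by rw [v3]; exact hL) (by rw [v4]; exact hL) d1 d2 d3 d4
  rw [hS] at hSL
  linarith

/-- Two boundary points are at distance at most half the perimeter. -/
lemma dist_le_of_frontier {F : Set E2} {γ : ℝ → E2} (h : BoundaryLoop F γ) {M : ℝ} (hM : 0 ≤ M)
    (hp : eVariationOn γ (Icc 0 4) ≤ ENNReal.ofReal (2 * M)) {z z' : E2} (hz : z ∈ frontier F)
    (hz' : z' ∈ frontier F) : dist z z' ≤ M := by
  have g4 : γ 4 = γ 0 := by have := h.periodic 0; simpa using this
  have key : ∀ s t : ℝ, 0 ≤ s → s ≤ t → t ≤ 4 → dist (γ s) (γ t) ≤ M := by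
    intro s t hs hst ht
    have a1 := eVariationOn.Icc_add_Icc γ (s := univ) hs hst (mem_univ s)
    have a2 := eVariationOn.Icc_add_Icc γ (s := univ) (hs.trans hst) ht (mem_univ t)
    simp only [univ_inter] at a1 a2
    have b1 : edist (γ 0) (γ s) ≤ eVariationOn γ (Icc 0 s) :=
      eVariationOn.edist_le _ ⟨le_refl _, hs⟩ ⟨hs, le_refl _⟩
    have b2 : edist (γ s) (γ t) ≤ eVariationOn γ (Icc s t) :=
      eVariationOn.edist_le _ ⟨le_refl _, hst⟩ ⟨hst, le_refl _⟩
    have b3 : edist (γ t) (γ 4) ≤ eVariationOn γ (Icc t 4) :=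
      eVariationOn.edist_le _ ⟨le_refl _, ht⟩ ⟨ht, le_refl _⟩
    have b4 : edist (γ s) (γ t) ≤ edist (γ 0) (γ s) + edist (γ t) (γ 4) := by
      rw [g4]
      calc edist (γ s) (γ t) ≤ edist (γ s) (γ 0) + edist (γ 0) (γ t) := edist_triangle _ _ _
        _ = edist (γ 0) (γ s) + edist (γ t) (γ 0) := by rw [edist_comm (γ s), edist_comm (γ 0) (γ t)]
    have b5 : edist (γ s) (γ t) + edist (γ s) (γ t) ≤ ENNReal.ofReal (2 * M) := by
      refine le_trans ?_ hp
      rw [← a2, ← a1]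
      calc edist (γ s) (γ t) + edist (γ s) (γ t)
          ≤ (edist (γ 0) (γ s) + edist (γ t) (γ 4)) + edist (γ s) (γ t) := by gcongr
        _ = edist (γ 0) (γ s) + edist (γ s) (γ t) + edist (γ t) (γ 4) := by ring
        _ ≤ _ := by gcongr
    rw [edist_dist, ← ENNReal.ofReal_add dist_nonneg dist_nonneg,
      ENNReal.ofReal_le_ofReal_iff (by positivity)] at b5
    linarith
  obtain ⟨s, hs, rfl⟩ := h.exists_Ico 0 hz
  obtain ⟨t, ht, rfl⟩ := h.exists_Ico 0 hz'
  rw [zero_add] at hs ht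
  rcases le_total s t with hst | hst
  · exact key s t hs.1 hst ht.2.le
  · rw [dist_comm]; exact key t s ht.1 hst hs.2.le

/-- The diameter of a compact set is controlled by distances between boundary points. -/
lemma diam_le_of_frontier {F : Set E2} (hc : IsCompact F) {M : ℝ} (hM : 0 ≤ M)
    (hM' : ∀ z ∈ frontier F, ∀ z' ∈ frontier F, dist z z' ≤ M) : Metric.diam F ≤ M := by
  apply Metric.diam_le_of_forall_dist_le hM
  intro z hz z' hz'
  have hdc : ContinuousOn (fun p : E2 × E2 => dist p.1 p.2) (F ×ˢ F) := continuous_dist.continuousOn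
  obtain ⟨p0, hp0, hmax⟩ := (hc.prod hc).exists_isMaxOn ⟨(z, z'), hz, hz'⟩ hdc
  obtain ⟨z0, hz0e⟩ : ∃ z0, z0 = p0.1 := ⟨_, rfl⟩
  obtain ⟨z0', hz0e'⟩ : ∃ z0', z0' = p0.2 := ⟨_, rfl⟩
  have hz0 : z0 ∈ F := by rw [hz0e]; exact hp0.1
  have hz0' : z0' ∈ F := by rw [hz0e']; exact hp0.2
  have hle : ∀ w ∈ F, ∀ w' ∈ F, dist w w' ≤ dist z0 z0' := by
    intro w hw w' hw'
    have := isMaxOn_iff.1 hmax (w, w') ⟨hw, hw'⟩
    rw [hz0e, hz0e']
    exact this
  have step : ∀ w ∈ F, ∀ w' ∈ F, (∀ y ∈ F, dist y w' ≤ dist w w') → 0 < dist w w' → w ∈ frontier F := by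
    intro w hw w' hw' hmx hpos
    rw [hc.isClosed.frontier_eq]
    refine ⟨hw, fun hwi => ?_⟩
    rw [mem_interior_iff_mem_nhds] at hwi
    have hcont : Filter.Tendsto (fun e : ℝ => w + e • (w - w')) (nhds 0) (nhds (w + (0:ℝ) • (w - w'))) :=
      (Continuous.tendsto (by fun_prop) 0)
    rw [zero_smul, add_zero] at hcont
    have hev : ∀ᶠ e : ℝ in nhds 0, w + e • (w - w') ∈ F := hcont hwi
    obtain ⟨e, he, hepos⟩ := (hev.filter_mono (nhdsWithin_le_nhds (s := Ioi 0))).and self_mem_nhdsWithin |>.exists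
    have hepos' : (0:ℝ) < e := hepos
    have h1 := hmx _ he
    have h2 : dist (w + e • (w - w')) w' = (1 + e) * dist w w' := by
      rw [dist_eq_norm, dist_eq_norm]
      have : w + e • (w - w') - w' = (1 + e) • (w - w') := by
        rw [add_smul, one_smul]; abel
      rw [this, norm_smul, Real.norm_eq_abs, abs_of_pos (by linarith)]
    rw [h2] at h1
    nlinarith
  rcases (dist_nonneg (x := z0) (y := z0')).eq_or_lt with h0 | hpos
  · have := hle z hz z' hz'
    linarith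
  · have f1 : z0 ∈ frontier F := step z0 hz0 z0' hz0' (fun y hy => hle y hy z0' hz0') hpos
    have f2 : z0' ∈ frontier F := by
      apply step z0' hz0' z0 hz0
      · intro y hy
        rw [dist_comm z0' z0]
        rw [dist_comm]
        exact hle z0 hz0 y hy
      · rw [dist_comm]; exact hpos
    exact (hle z hz z' hz').trans (hM' z0 f1 z0' f2)

/-- **Perpendicular perimeter-quadrisecting chords and the diameter.**  For every plane convex
figure `F` and every pair of perpendicular chords `[a, c]`, `[b, d]` that quadrisect the perimeter,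
`D(F) ≤ |a - c| + |b - d|`. -/
theorem result (F : Set (EuclideanSpace ℝ (Fin 2))) (a b c d : EuclideanSpace ℝ (Fin 2))
    (hF : IsFigure F) (hq : QuadrisectsPerimeter F a b c d)
    (hperp : inner ℝ (c - a) (d - b) = 0) :
    Metric.diam F ≤ dist a c + dist b d := by
  obtain ⟨γ, hγ, rfl, rfl, rfl, rfl, v1, v2, v3, v4⟩ := hq
  have h : BoundaryLoop F γ := ⟨hγ.continuous, hγ.periodic, hγ.injOn, hγ.range_eq⟩
  have hperp' : (γ 2 0 - γ 0 0) * (γ 1 0 - γ 3 0) + (γ 2 1 - γ 0 1) * (γ 1 1 - γ 3 1) = 0 := by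
    rw [EuclideanSpace.inner_eq_star_dotProduct] at hperp
    simp [dotProduct, Fin.sum_univ_two] at hperp
    linarith
  have hp := perimeter_le hF.convex hF.compact hF.interior_nonempty h hperp' v1 v2 v3 v4
  have hM : 0 ≤ dist (γ 0) (γ 2) + dist (γ 1) (γ 3) := by positivity
  exact diam_le_of_frontier hF.compact hM (fun z hz z' hz' => dist_le_of_frontier h hM hp hz hz')

end Pool.Agent.Results.MP_0815b2_gt.PerpendicularQuadrisection
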